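import Mathlib
import Pool.Agent.CuspM.Top

/-! A symmetric 1DOF expansive mechanism in three-space, not contained in a plane, none of whose
expansive motions keeps the symmetry. -/

set_option autoImplicit false

namespace Pool.Agent.Results.MP_e3c312_co.CuspMechanism

open Set Pool.Agent.CuspM

theorem P0_eq : P0 = Place := by
  funext i
  fin_cases i <;> simp [P0, K, Place]

theorem CR_eq (R : (Fin 6 → E3) → (Fin 6 → E3) → Prop) : CR R = Cfg R := by
  unfold CR Cfg
  rw [P0_eq]

theorem span_top : affineSpan ℝ (range Place) = ⊤ := by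
  rw [AffineSubspace.affineSpan_eq_top_iff_vectorSpan_eq_top_of_nonempty ℝ E3 E3
    (range_nonempty _)]
  rw [← Submodule.orthogonal_eq_bot_iff, Submodule.eq_bot_iff]
  intro v hv
  have h : ∀ i j, inner ℝ (Place i - Place j) v = 0 := by
    intro i j
    exact (Submodule.mem_orthogonal _ _).1 hv _
      (vsub_mem_vectorSpan ℝ (mem_range_self i) (mem_range_self j))
  have h1 := h 1 0
  have h2 := h 3 2
  have h3 := h 2 0
  simp [Place, PiLp.inner_apply, Fin.sum_univ_three] at h1 h2 h3
  ext i
  fin_cases i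
  · simp; linarith
  · simp; linarith
  · simp; linarith

theorem adj_sg (u v : Fin 6) : G6.Adj (sg u) (sg v) ↔ G6.Adj u v := by
  revert u v; decide

theorem turn_K (a b c d : ℝ) (i : Fin 6) : turn (K a b c d i) = K c d a b (sg i) := by
  have s0 : sg 0 = 1 := by decide
  have s1 : sg 1 = 0 := by decide
  have s2 : sg 2 = 3 := by decide
  have s3 : sg 3 = 2 := by decide
  have s4 : sg 4 = 5 := by decide
  have s5 : sg 5 = 4 := by decide
  fin_cases i
  · change turn (K a b c d 0) = K c d a b (sg 0)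
    rw [s0]; ext j; fin_cases j <;> simp [K, turn]
  · change turn (K a b c d 1) = K c d a b (sg 1)
    rw [s1]; ext j; fin_cases j <;> simp [K, turn]
  · change turn (K a b c d 2) = K c d a b (sg 2)
    rw [s2]; ext j; fin_cases j <;> simp [K, turn]
  · change turn (K a b c d 3) = K c d a b (sg 3)
    rw [s3]; ext j; fin_cases j <;> simp [K, turn]
  · change turn (K a b c d 4) = K c d a b (sg 4)
    rw [s4]; ext j; fin_cases j <;> (simp [K, turn]; try ring)
  · change turn (K a b c d 5) = K c d a b (sg 5)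
    rw [s5]; ext j; fin_cases j <;> (simp [K, turn]; try ring)

theorem turn_dist (x y : E3) : dist (turn x) (turn y) = dist x y := by
  apply sq_inj_dist
  rw [dist_sq_E3, dist_sq_E3]
  simp [turn]
  ring

/-- **Main result.** `E3` is Euclidean three-space; `G6` is the graph on six vertices in which all
pairs are joined except `1`-`4`, `3`-`4`, `0`-`5`, `2`-`5`. The framework `(G6, Place)` is symmetric
under the half-turn `turn` with the permutation `sg` of the vertices, and it spans three-space.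
There is a continuous path `m` of placements, `m 0 = Place`, which keeps the bar lengths, such that
`t ↦ [m t]` is a homeomorphism of `(-2, 2)` onto a neighbourhood of `[Place]` in the configuration
space modulo isometries, and also modulo direct isometries; both half-branches are expansive, the
half-turn swaps them, and no congruent copy of any `m t`, `t ≠ 0`, is symmetric. -/
theorem result :
    (Isometry turn ∧ (∀ x, turn (turn x) = x) ∧ (∀ u v, G6.Adj (sg u) (sg v) ↔ G6.Adj u v) ∧
      Sym Place ∧ affineSpan ℝ (range Place) = ⊤) ∧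
    ∃ m : ℝ → Fin 6 → E3, m 0 = Place ∧ ContinuousOn m (Ioo (-2) 2) ∧ Keeps m ∧
      Chart Cong m ∧ Chart DCong m ∧
      Expands m ∧ Expands (fun t => m (-t)) ∧ (∀ t i, turn (m t i) = m (-t) (sg i)) ∧
      ∀ t ∈ Ioo (-2 : ℝ) 2, t ≠ 0 → ∀ T : E3 ≃ᵢ E3, ¬ Sym (fun i => T (m t i)) := by
  have hsg : ∀ i, turn (Place i) = Place (sg i) := by
    intro i
    rw [← P0_eq]
    exact turn_K 0 0 0 0 i
  have pair : ∀ i j : Fin 6, i ≠ j → ¬ G6.Adj i j →
      (i = 1 ∧ j = 4) ∨ (i = 4 ∧ j = 1) ∨ (i = 3 ∧ j = 4) ∨ (i = 4 ∧ j = 3) ∨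
      (i = 0 ∧ j = 5) ∨ (i = 5 ∧ j = 0) ∨ (i = 2 ∧ j = 5) ∨ (i = 5 ∧ j = 2) := by
    decide
  have hturn : ∀ q i, turn (PP q i) = PP (-q) (sg i) := by
    intro q i
    unfold PP
    rw [turn_K, neg_neg]
  have anti : ∀ s t : ℝ, 0 ≤ s → s < t → t < 2 → ∀ i j, i ≠ j → ¬ G6.Adj i j →
      dist (PP (s / 4) i) (PP (s / 4) j) < dist (PP (t / 4) i) (PP (t / 4) j) := by
    intro s t hs hst ht i j hij hn
    obtain ⟨h1, h2, h3, h4⟩ := mono_PP (s := s / 4) (t := t / 4) (by linarith) (by linarith)
      (by linarith)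
    rcases pair i j hij hn with ⟨rfl, rfl⟩ | ⟨rfl, rfl⟩ | ⟨rfl, rfl⟩ | ⟨rfl, rfl⟩ | ⟨rfl, rfl⟩ |
      ⟨rfl, rfl⟩ | ⟨rfl, rfl⟩ | ⟨rfl, rfl⟩
    · exact h1
    · rw [dist_comm (PP (s / 4) 4), dist_comm (PP (t / 4) 4)]; exact h1
    · exact h2
    · rw [dist_comm (PP (s / 4) 4), dist_comm (PP (t / 4) 4)]; exact h2
    · exact h3
    · rw [dist_comm (PP (s / 4) 5), dist_comm (PP (t / 4) 5)]; exact h3
    · exact h4
    · rw [dist_comm (PP (s / 4) 5), dist_comm (PP (t / 4) 5)]; exact h4
  have flip : ∀ q i j, dist (PP (-q) i) (PP (-q) j) = dist (PP q (sg i)) (PP q (sg j)) := by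
    intro q i j
    have hh : ∀ i, sg (sg i) = i := by decide
    have e1 := hturn q (sg i)
    have e2 := hturn q (sg j)
    rw [hh] at e1 e2
    rw [← e1, ← e2, turn_dist]
  refine ⟨⟨Isometry.of_dist_eq turn_dist, ?_, adj_sg, hsg, span_top⟩,
    fun t => PP (t / 4), ?_, ?_, ?_, ?_, ?_, anti, ?_, ?_, ?_⟩
  · intro x
    ext i
    fin_cases i <;> simp [turn]
  · change PP (0 / 4) = Place
    rw [zero_div, PP_zero, P0_eq]
  · apply continuousOn_PP.comp (by fun_prop)
    intro t ht
    exact half_mem ⟨t, ht⟩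
  · intro t ht i j hij
    rw [← P0_eq]
    exact sides_PP (half_mem ⟨t, ht⟩) i j hij
  · have h := chart_cong
    rw [CR_eq] at h
    exact h
  · have h := chart_dcong
    rw [CR_eq] at h
    exact h
  · intro s t hs hst ht i j hij hn
    change dist (PP (-s / 4) i) (PP (-s / 4) j) < dist (PP (-t / 4) i) (PP (-t / 4) j)
    rw [neg_div, neg_div, flip, flip]
    exact anti s t hs hst ht _ _ (fun h => hij (sg.injective h)) (fun h => hn ((adj_sg i j).1 h))
  · intro t i
    change turn (PP (t / 4) i) = PP (-t / 4) (sg i)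
    rw [hturn, neg_div]
  · intro t ht h0 T hT
    change ∀ i, turn (T (PP (t / 4) i)) = T (PP (t / 4) (sg i)) at hT
    have e : dist (PP (t / 4) 1) (PP (t / 4) 4) = dist (PP (t / 4) 0) (PP (t / 4) 5) := by
      have e1 := hT 1
      have e4 := hT 4
      have s1 : sg 1 = 0 := by decide
      have s4 : sg 4 = 5 := by decide
      rw [s1] at e1
      rw [s4] at e4
      rw [← T.isometry.dist_eq (PP (t / 4) 0), ← e1, ← e4, turn_dist, T.isometry.dist_eq]
    have e' : al (t / 4) = al (-(t / 4)) := by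
      have h1 := aF_PP (t / 4)
      have h2 := cF_PP (t / 4)
      unfold aF at h1
      unfold cF at h2
      rw [e] at h1
      rw [← h1, ← h2]
    rcases lt_or_gt_of_ne h0 with h | h
    · have := al_ne (q := -(t / 4)) (by linarith) (by linarith [ht.1])
      rw [neg_neg] at this
      linarith
    · have := al_ne (q := t / 4) (by linarith) (by linarith [ht.2])
      linarith

end Pool.Agent.Results.MP_e3c312_co.CuspMechanism
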